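import Pool.Agent.H27.L1.H67.GZ.IDX

/-!
# Row STA of the board gz: many points of the saturation of the span of the first vectors of a
reduced basis
-/

set_option autoImplicit false

namespace Pool.Agent.H27.L1.H67.GZ

open Pool.Agent.H27.L1.H34.GM Pool.Agent.H27.L1.H34.GZ
open scoped Matrix

section Norm

variable {m : ℕ}

theorem rowN_eq (v : Fin m → ℝ) :
    rowN v = ‖(WithLp.toLp 2 v : EuclideanSpace ℝ (Fin m))‖ := by
  rw [EuclideanSpace.norm_eq]
  unfold rowN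
  congr 1
  refine Finset.sum_congr rfl fun i _ => ?_
  rw [Real.norm_eq_abs, sq_abs]

theorem rowN_add (u v : Fin m → ℝ) : rowN (u + v) ≤ rowN u + rowN v := by
  rw [rowN_eq, rowN_eq, rowN_eq, WithLp.toLp_add]
  exact norm_add_le _ _

theorem rowN_smul (r : ℝ) (v : Fin m → ℝ) : rowN (r • v) = |r| * rowN v := by
  rw [rowN_eq, rowN_eq, WithLp.toLp_smul, norm_smul, Real.norm_eq_abs]

theorem rowN_zero : rowN (0 : Fin m → ℝ) = 0 := by
  unfold rowN
  simp

theorem rowN_nonneg (v : Fin m → ℝ) : 0 ≤ rowN v := Real.sqrt_nonneg _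

theorem rowN_sum {ι : Type} (s : Finset ι) (f : ι → Fin m → ℝ) :
    rowN (∑ i ∈ s, f i) ≤ ∑ i ∈ s, rowN (f i) := by
  classical
  induction s using Finset.induction_on with
  | empty => simp [rowN_zero]
  | insert i s hi ih =>
    rw [Finset.sum_insert hi, Finset.sum_insert hi]
    exact (rowN_add _ _).trans (add_le_add le_rfl ih)

theorem vb_comb (w : Fin m → ℤ) (c : ZM m) (b : Mat m) (r : Fin m → ℝ)
    (h : ∀ l, (w l : ℝ) = ∑ j, r j * (c j l : ℝ)) : vb w b = ∑ j, r j • vb (c j) b := by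
  funext l
  rw [Finset.sum_apply]
  simp only [vb, Matrix.vecMul, dotProduct, Pi.smul_apply, smul_eq_mul]
  have h1 : ∀ i, (w i : ℝ) * b i l = ∑ j, r j * ((c j i : ℝ) * b i l) := by
    intro i
    rw [h i, Finset.sum_mul]
    exact Finset.sum_congr rfl fun j _ => by ring
  rw [Finset.sum_congr rfl fun i _ => h1 i, Finset.sum_comm]
  refine Finset.sum_congr rfl fun j _ => ?_
  rw [Finset.mul_sum]

theorem vb_row (c : ZM m) (b : Mat m) (t : Fin m) : (cR c * b) t = vb (c t) b := by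
  funext l
  rw [Matrix.mul_apply]
  simp only [vb, Matrix.vecMul, dotProduct, cR, Matrix.map_apply]

theorem vb_mul (y : Fin m → ℤ) (c : ZM m) (b : Mat m) :
    vb y (cR c * b) = vb (y ᵥ* c) b := by
  unfold vb
  rw [← Matrix.vecMul_vecMul]
  congr 1
  funext l
  simp only [Matrix.vecMul, dotProduct, cR, Matrix.map_apply]
  push_cast
  rfl

theorem vecMul_inj {c : ZM m} (hc : c.det ≠ 0) {u u' : Fin m → ℤ} (h : u ᵥ* c = u' ᵥ* c) :
    u = u' := by
  have h1 : (u ᵥ* c) ᵥ* c.adjugate = (u' ᵥ* c) ᵥ* c.adjugate := by rw [h]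
  rw [Matrix.vecMul_vecMul, Matrix.vecMul_vecMul, Matrix.mul_adjugate, Matrix.vecMul_smul,
    Matrix.vecMul_smul, Matrix.vecMul_one, Matrix.vecMul_one] at h1
  funext l
  have h2 := congrFun h1 l
  simp only [Pi.smul_apply, smul_eq_mul] at h2
  exact mul_left_cancel₀ hc h2

theorem adj_inj {c : ZM m} (hc : c.det ≠ 0) :
    Function.Injective fun w : Fin m → ℤ => w ᵥ* c.adjugate := by
  intro w w' h
  have h1 : (w ᵥ* c.adjugate) ᵥ* c = (w' ᵥ* c.adjugate) ᵥ* c := by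
    have h2 : w ᵥ* c.adjugate = w' ᵥ* c.adjugate := h
    rw [h2]
  rw [Matrix.vecMul_vecMul, Matrix.vecMul_vecMul, Matrix.adjugate_mul, Matrix.vecMul_smul,
    Matrix.vecMul_smul, Matrix.vecMul_one, Matrix.vecMul_one] at h1
  funext l
  have h2 := congrFun h1 l
  simp only [Pi.smul_apply, smul_eq_mul] at h2
  exact mul_left_cancel₀ hc h2

/-- finitely many lattice points of bounded length -/
theorem fin_ball (hCNT : T_CNT) (b : Mat m) (c : ZM m) (n : Mat m) (kap : Fin m → ℝ) (k : Mat m)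
    (hc : c.det ≠ 0) (hS : Sgl (cR c * b) n kap k) (R : ℝ) :
    {w : Fin m → ℤ | rowN (vb w b) ≤ R}.Finite := by
  rcases lt_or_ge R 0 with hR | hR
  · have : {w : Fin m → ℤ | rowN (vb w b) ≤ R} = ∅ := by
      ext w
      refine ⟨fun h => ?_, fun h => absurd h (Set.notMem_empty w)⟩
      exact absurd (lt_of_lt_of_le hR (rowN_nonneg _)) (not_lt.2 h)
    rw [this]
    exact Set.finite_empty
  obtain ⟨h1, -⟩ := hCNT m (cR c * b) n kap k hS
  obtain ⟨h2, -⟩ := h1 (|(c.det : ℝ)| * R) (by positivity)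
  refine (h2.preimage (adj_inj hc).injOn).subset ?_
  intro w hw
  have hw' : rowN (vb w b) ≤ R := hw
  have h3 : vb (w ᵥ* c.adjugate) (cR c * b) = (c.det : ℝ) • vb w b := by
    rw [vb_mul, Matrix.vecMul_vecMul, Matrix.adjugate_mul, Matrix.vecMul_smul, Matrix.vecMul_one]
    unfold vb
    rw [← Matrix.smul_vecMul]
    congr 1
    funext l
    simp only [Pi.smul_apply, smul_eq_mul]
    push_cast
    rfl
  change rowN (vb (w ᵥ* c.adjugate) (cR c * b)) ≤ |(c.det : ℝ)| * R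
  rw [h3, rowN_smul]
  exact mul_le_mul_of_nonneg_left hw' (abs_nonneg _)

end Norm

/-- membership in the saturation -/
theorem mem_Lx {m : ℕ} (c : ZM m) (s : ℕ) (w : Fin m → ℤ) :
    w ∈ Lx c s ↔ ∃ q : Fin m → ℚ, (∀ j : Fin m, s ≤ (j : ℕ) → q j = 0) ∧
      ∀ l, (w l : ℚ) = ∑ j, q j * (c j l : ℚ) := by
  have h0 : w ∈ Lx c s ↔ (fun l => ((w l : ℤ) : ℚ)) ∈ Submodule.span ℚ
      {w : Fin m → ℚ | ∃ j : Fin m, (j : ℕ) < s ∧ w = fun l => ((c j l : ℤ) : ℚ)} := Iff.rfl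
  rw [h0]
  constructor
  · intro h
    have key : ∀ x ∈ Submodule.span ℚ
        {w : Fin m → ℚ | ∃ j : Fin m, (j : ℕ) < s ∧ w = fun l => ((c j l : ℤ) : ℚ)},
        ∃ q : Fin m → ℚ, (∀ j : Fin m, s ≤ (j : ℕ) → q j = 0) ∧
          ∀ l, x l = ∑ j, q j * (c j l : ℚ) := by
      intro x hx
      induction hx using Submodule.span_induction with
      | mem x hx =>
        obtain ⟨j, hj, rfl⟩ := hx
        refine ⟨Pi.single j 1, fun i hi => ?_, fun l => ?_⟩
        · refine Pi.single_eq_of_ne ?_ _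
          rintro rfl
          omega
        · rw [Finset.sum_eq_single j]
          · rw [Pi.single_eq_same, one_mul]
          · intro i _ hi
            rw [Pi.single_eq_of_ne hi, zero_mul]
          · intro hj'
            exact absurd (Finset.mem_univ j) hj'
      | zero => exact ⟨0, fun _ _ => rfl, fun l => by simp⟩
      | add x y _ _ hx hy =>
        obtain ⟨q, hq, hx⟩ := hx
        obtain ⟨p, hp, hy⟩ := hy
        refine ⟨q + p, fun j hj => ?_, fun l => ?_⟩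
        · rw [Pi.add_apply, hq j hj, hp j hj, add_zero]
        · rw [Pi.add_apply, hx l, hy l, ← Finset.sum_add_distrib]
          exact Finset.sum_congr rfl fun j _ => by rw [Pi.add_apply, add_mul]
      | smul a x _ hx =>
        obtain ⟨q, hq, hx⟩ := hx
        refine ⟨a • q, fun j hj => ?_, fun l => ?_⟩
        · rw [Pi.smul_apply, hq j hj, smul_zero]
        · rw [Pi.smul_apply, hx l, smul_eq_mul, Finset.mul_sum]
          exact Finset.sum_congr rfl fun j _ => by rw [Pi.smul_apply, smul_eq_mul, mul_assoc]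
    exact key _ h
  · rintro ⟨q, hq, hw⟩
    have h1 : (fun l => ((w l : ℤ) : ℚ)) = ∑ j, q j • (fun l => ((c j l : ℤ) : ℚ)) := by
      funext l
      rw [hw l, Finset.sum_apply]
      rfl
    rw [h1]
    refine Submodule.sum_mem _ fun j _ => ?_
    by_cases hj : (j : ℕ) < s
    · exact Submodule.smul_mem _ _ (Submodule.subset_span ⟨j, hj, rfl⟩)
    · rw [hq j (not_lt.1 hj), zero_smul]
      exact Submodule.zero_mem _

theorem mem_U {m : ℕ} (c : ZM m) (u : Fin m → ℤ) :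
    u ᵥ* c ∈ AddSubgroup.closure (Set.range c) := by
  rw [clo_eq]
  refine (Submodule.mem_span_range_iff_exists_fun ℤ).2 ⟨u, ?_⟩
  funext l
  rw [Finset.sum_apply]
  rfl

theorem comb_Lx {m : ℕ} (c : ZM m) (s : ℕ) (u : Fin m → ℤ)
    (hu : ∀ j : Fin m, s ≤ (j : ℕ) → u j = 0) : u ᵥ* c ∈ Lx c s := by
  rw [mem_Lx]
  refine ⟨fun j => (u j : ℚ), fun j hj => ?_, fun l => ?_⟩
  · change (u j : ℚ) = 0
    rw [hu j hj, Int.cast_zero]
  simp only [Matrix.vecMul, dotProduct]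
  push_cast
  rfl

/-- reduced representatives of the cosets -/
theorem rep_Lx {m : ℕ} (c : ZM m) (s : ℕ)
    (κ : Lx c s ⧸ (AddSubgroup.closure (Set.range c)).addSubgroupOf (Lx c s)) :
    ∃ v : Lx c s, (QuotientAddGroup.mk v : Lx c s ⧸
      (AddSubgroup.closure (Set.range c)).addSubgroupOf (Lx c s)) = κ ∧
      ∃ q : Fin m → ℚ, (∀ j : Fin m, s ≤ (j : ℕ) → q j = 0) ∧ (∀ j, 0 ≤ q j ∧ q j < 1) ∧
        ∀ l, ((v : Fin m → ℤ) l : ℚ) = ∑ j, q j * (c j l : ℚ) := by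
  obtain ⟨v, rfl⟩ := QuotientAddGroup.mk_surjective κ
  obtain ⟨q, hq, hv⟩ := (mem_Lx c s v).1 v.2
  obtain ⟨z, hz⟩ : ∃ z : Fin m → ℤ, z = (fun j => ⌊q j⌋) ᵥ* c := ⟨_, rfl⟩
  have hzV : z ∈ Lx c s := by
    rw [hz]
    exact comb_Lx c s _ fun j hj => by rw [hq j hj, Int.floor_zero]
  have hzU : z ∈ AddSubgroup.closure (Set.range c) := by
    rw [hz]
    exact mem_U c _
  have hzl : ∀ l, (z l : ℚ) = ∑ j, (⌊q j⌋ : ℚ) * (c j l : ℚ) := by
    intro l
    rw [hz]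
    simp only [Matrix.vecMul, dotProduct]
    push_cast
    rfl
  refine ⟨v - ⟨z, hzV⟩, ?_, fun j => Int.fract (q j), fun j hj => ?_, fun j => ?_, fun l => ?_⟩
  · rw [QuotientAddGroup.eq]
    have h1 : -(v - ⟨z, hzV⟩) + v = ⟨z, hzV⟩ := by abel
    rw [h1, AddSubgroup.mem_addSubgroupOf]
    exact hzU
  · change Int.fract (q j) = 0
    rw [hq j hj, Int.fract_zero]
  · exact ⟨Int.fract_nonneg _, Int.fract_lt_one _⟩
  · have h1 : (((v - ⟨z, hzV⟩ : Lx c s) : Fin m → ℤ) l : ℚ) = ((v : Fin m → ℤ) l : ℚ) - z l :=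
      Int.cast_sub _ _
    rw [h1, hv l, hzl l, ← Finset.sum_sub_distrib]
    refine Finset.sum_congr rfl fun j _ => ?_
    rw [← sub_mul, Int.self_sub_floor]

/-- bound of the length of a combination with small coefficients -/
theorem norm_bd {m : ℕ} (hCNT : T_CNT) (b : Mat m) (c : ZM m) (n : Mat m) (kap : Fin m → ℝ)
    (k : Mat m) (hS : Sgl (cR c * b) n kap k) (ρ : ℝ) (s : ℕ) (hρ : 0 < ρ)
    (hkap : ∀ t : Fin m, (t : ℕ) < s → kap t ≤ 2 ^ m * ρ) (w : Fin m → ℤ) (r : Fin m → ℝ)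
    (hr0 : ∀ j : Fin m, s ≤ (j : ℕ) → r j = 0)
    (hr1 : ∀ j : Fin m, (j : ℕ) < s → 0 ≤ r j ∧ r j ≤ 2 + ρ / kap j)
    (hw : ∀ l, (w l : ℝ) = ∑ j, r j * (c j l : ℝ)) :
    rowN (vb w b) ≤ (m * (m * 2 ^ m) * (2 * 2 ^ m + 1)) * ρ := by
  obtain ⟨-, h2, -⟩ := hCNT m (cR c * b) n kap k hS
  rw [vb_comb w c b r hw]
  refine (rowN_sum _ _).trans ?_
  have h3 : ∀ j ∈ (Finset.univ : Finset (Fin m)), rowN (r j • vb (c j) b) ≤
      (m * 2 ^ m) * (2 * 2 ^ m + 1) * ρ := by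
    intro j _
    rw [rowN_smul]
    by_cases hj : (j : ℕ) < s
    · obtain ⟨h4, h5⟩ := hr1 j hj
      have h6 := h2 j
      rw [vb_row] at h6
      have hk := hS.pos j
      rw [abs_of_nonneg h4]
      calc r j * rowN (vb (c j) b) ≤ (2 + ρ / kap j) * (m * 2 ^ m * kap j) :=
            mul_le_mul h5 h6 (rowN_nonneg _) (by positivity)
        _ = (m * 2 ^ m) * (2 * kap j + ρ) := by field_simp
        _ ≤ (m * 2 ^ m) * (2 * (2 ^ m * ρ) + ρ) := by
            have := hkap j hj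
            gcongr
        _ = _ := by ring
    · rw [hr0 j (not_lt.1 hj), abs_zero, zero_mul]
      positivity
  refine (Finset.sum_le_sum h3).trans (le_of_eq ?_)
  rw [Finset.sum_const, Finset.card_univ, Fintype.card_fin, nsmul_eq_mul]
  ring

theorem pf_STA (hCNT : T_CNT) : T_STA := by
  classical
  intro m hm
  obtain ⟨C₀, hC₀⟩ : ∃ C₀ : ℝ, C₀ = m * (m * 2 ^ m) * (2 * 2 ^ m + 1) := ⟨_, rfl⟩
  have hC₀0 : 0 ≤ C₀ := by rw [hC₀]; positivity
  have h2m : (1 : ℝ) ≤ 2 ^ m := one_le_pow₀ (by norm_num)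
  refine ⟨2 * 2 ^ m + C₀, by linarith, ?_⟩
  intro b c n kap k hb hc hS ρ s hs hρ hkap W hW
  obtain ⟨t0, ht0, ht0W⟩ := hW
  obtain ⟨T, hT⟩ : ∃ T : Set (Fin m → ℤ), T = {w : Fin m → ℤ | w ∈ Lx c s ∧ w ∉ W ∧
      rowN (vb w b) ≤ (2 * 2 ^ m + C₀) * ρ} := ⟨_, rfl⟩
  rw [← hT]
  have hfin : T.Finite := by
    refine (fin_ball hCNT b c n kap k hc hS ((2 * 2 ^ m + C₀) * ρ)).subset ?_
    intro w hw
    rw [hT] at hw
    exact hw.2.2
  refine ⟨hfin, ?_⟩
  obtain ⟨U, hU⟩ : ∃ U : AddSubgroup (Fin m → ℤ), U = AddSubgroup.closure (Set.range c) :=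
    ⟨_, rfl⟩
  rw [← hU]
  by_cases he : U.relIndex (Lx c s) = 0
  · rw [he, Nat.cast_zero, zero_mul]
    positivity
  -- representatives
  have hQfin : Finite (Lx c s ⧸ U.addSubgroupOf (Lx c s)) := Nat.finite_of_card_ne_zero he
  have hrep := rep_Lx c s
  rw [← hU] at hrep
  choose v hv q hq0 hq1 hvq using hrep
  -- the coefficients
  obtain ⟨N, hN⟩ : ∃ N : Fin m → ℕ, ∀ t, N t = if (t : ℕ) < s then ⌊ρ / kap t⌋₊ + 1 else 1 :=
    ⟨_, fun _ => rfl⟩
  obtain ⟨uu, huu⟩ : ∃ uu : ((t : Fin m) → Fin (N t)) → Fin m → ℤ,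
      ∀ p t, uu p t = ((p t : ℕ) : ℤ) := ⟨fun p t => ((p t : ℕ) : ℤ), fun _ _ => rfl⟩
  have huinj : Function.Injective uu := by
    intro p p' h
    funext t
    have h1 := congrFun h t
    rw [huu, huu] at h1
    exact Fin.ext (by exact_mod_cast h1)
  have hu0 : ∀ p t, s ≤ ((t : Fin m) : ℕ) → uu p t = 0 := by
    intro p t ht
    have h1 : (p t : ℕ) < N t := (p t).2
    have h3 := hN t
    rw [if_neg (not_lt.2 ht)] at h3
    rw [huu]
    have h2 : (p t : ℕ) = 0 := by omega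
    rw [h2, Nat.cast_zero]
  have hu1 : ∀ p t, ((t : Fin m) : ℕ) < s → 0 ≤ (uu p t : ℝ) ∧ (uu p t : ℝ) ≤ ρ / kap t := by
    intro p t ht
    have h1 : (p t : ℕ) < N t := (p t).2
    have h4 := hN t
    rw [if_pos ht] at h4
    have h2 : (p t : ℕ) ≤ ⌊ρ / kap t⌋₊ := by omega
    have hk := hS.pos t
    have h3 : ((p t : ℕ) : ℝ) ≤ ρ / kap t :=
      le_trans (by exact_mod_cast h2) (Nat.floor_le (by positivity))
    rw [huu]
    push_cast
    exact ⟨by positivity, h3⟩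
  obtain ⟨f, hf⟩ : ∃ f : (Lx c s ⧸ U.addSubgroupOf (Lx c s)) × ((t : Fin m) → Fin (N t)) →
      (Fin m → ℤ), ∀ d, f d = (v d.1 : Fin m → ℤ) + uu d.2 ᵥ* c := ⟨_, fun _ => rfl⟩
  have hfinj : Function.Injective f := by
    rintro ⟨κ, p⟩ ⟨κ', p'⟩ h
    rw [hf, hf] at h
    have h1 : -(v κ : Fin m → ℤ) + (v κ' : Fin m → ℤ) = (uu p - uu p') ᵥ* c := by
      rw [Matrix.sub_vecMul]
      have h' : (v κ : Fin m → ℤ) + uu p ᵥ* c = (v κ' : Fin m → ℤ) + uu p' ᵥ* c := h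
      have h2 : (v κ' : Fin m → ℤ) = (v κ : Fin m → ℤ) + uu p ᵥ* c - uu p' ᵥ* c := by
        rw [h']
        abel
      rw [h2]
      abel
    have h3 : κ = κ' := by
      rw [← hv κ, ← hv κ', QuotientAddGroup.eq, AddSubgroup.mem_addSubgroupOf]
      have h4 : ((-(v κ) + v κ' : Lx c s) : Fin m → ℤ) =
          -(v κ : Fin m → ℤ) + (v κ' : Fin m → ℤ) := rfl
      rw [h4, h1, hU]
      exact mem_U c _
    subst h3
    have h5 : uu p ᵥ* c = uu p' ᵥ* c := by
      have h' : (v κ : Fin m → ℤ) + uu p ᵥ* c = (v κ : Fin m → ℤ) + uu p' ᵥ* c := h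
      exact add_left_cancel h'
    rw [huinj (vecMul_inj hc h5)]
  -- the coefficients of `f d`
  have hcoef : ∀ d l, (f d l : ℝ) =
      ∑ j, (((q d.1 j : ℚ) : ℝ) + (uu d.2 j : ℝ)) * (c j l : ℝ) := by
    intro d l
    have h1 : (((v d.1 : Fin m → ℤ) l : ℤ) : ℝ) = ∑ j, ((q d.1 j : ℚ) : ℝ) * (c j l : ℝ) := by
      have h2 := hvq d.1 l
      have h3 : ((((v d.1 : Fin m → ℤ) l : ℤ) : ℚ) : ℝ) =
          ((∑ j, q d.1 j * (c j l : ℚ) : ℚ) : ℝ) := by rw [h2]
      push_cast at h3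
      exact h3
    have h2 : (((uu d.2 ᵥ* c) l : ℤ) : ℝ) = ∑ j, (uu d.2 j : ℝ) * (c j l : ℝ) := by
      simp only [Matrix.vecMul, dotProduct]
      push_cast
      rfl
    rw [hf, Pi.add_apply, Int.cast_add, h1, h2, ← Finset.sum_add_distrib]
    exact Finset.sum_congr rfl fun j _ => by ring
  have hfV : ∀ d, f d ∈ Lx c s := by
    intro d
    rw [hf]
    exact (Lx c s).add_mem (v d.1).2 (comb_Lx c s _ (hu0 d.2))
  have hctV : c t0 ∈ Lx c s := by
    rw [mem_Lx]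
    refine ⟨Pi.single t0 1, fun j hj => ?_, fun l => ?_⟩
    · refine Pi.single_eq_of_ne ?_ _
      rintro rfl
      omega
    · rw [Finset.sum_eq_single t0]
      · rw [Pi.single_eq_same, one_mul]
      · intro i _ hi
        rw [Pi.single_eq_of_ne hi, zero_mul]
      · intro hj'
        exact absurd (Finset.mem_univ t0) hj'
  have hq1' : ∀ κ j, 0 ≤ ((q κ j : ℚ) : ℝ) ∧ ((q κ j : ℚ) : ℝ) ≤ 1 := by
    intro κ j
    obtain ⟨h1, h2⟩ := hq1 κ j
    exact ⟨by exact_mod_cast h1, by exact_mod_cast h2.le⟩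
  have hn1 : ∀ d, rowN (vb (f d) b) ≤ (2 * 2 ^ m + C₀) * ρ := by
    intro d
    refine (norm_bd hCNT b c n kap k hS ρ s hρ hkap (f d)
      (fun j => ((q d.1 j : ℚ) : ℝ) + (uu d.2 j : ℝ)) (fun j hj => ?_) (fun j hj => ?_)
      (hcoef d)).trans ?_
    · change ((q d.1 j : ℚ) : ℝ) + (uu d.2 j : ℝ) = 0
      rw [hq0 d.1 j hj, hu0 d.2 j hj]
      norm_num
    · obtain ⟨h1, h2⟩ := hq1' d.1 j
      obtain ⟨h3, h4⟩ := hu1 d.2 j hj
      exact ⟨by positivity, by linarith⟩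
    · rw [← hC₀]
      nlinarith
  have hn2 : ∀ d, rowN (vb (f d + c t0) b) ≤ (2 * 2 ^ m + C₀) * ρ := by
    intro d
    refine (norm_bd hCNT b c n kap k hS ρ s hρ hkap (f d + c t0)
      (fun j => ((q d.1 j : ℚ) : ℝ) + (uu d.2 j : ℝ) + if j = t0 then 1 else 0)
      (fun j hj => ?_) (fun j hj => ?_) (fun l => ?_)).trans ?_
    · change ((q d.1 j : ℚ) : ℝ) + (uu d.2 j : ℝ) + (if j = t0 then 1 else 0) = 0
      rw [hq0 d.1 j hj, hu0 d.2 j hj, if_neg]
      · norm_num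
      · rintro rfl
        omega
    · obtain ⟨h1, h2⟩ := hq1' d.1 j
      obtain ⟨h3, h4⟩ := hu1 d.2 j hj
      have h5 : (0 : ℝ) ≤ (if j = t0 then 1 else 0) ∧ (if j = t0 then 1 else 0 : ℝ) ≤ 1 := by
        split_ifs <;> norm_num
      exact ⟨by linarith [h5.1], by linarith [h5.2]⟩
    · rw [Pi.add_apply, Int.cast_add, hcoef d l]
      have h1 : ∀ j, (((q d.1 j : ℚ) : ℝ) + (uu d.2 j : ℝ) + if j = t0 then 1 else 0) *
          (c j l : ℝ) = (((q d.1 j : ℚ) : ℝ) + (uu d.2 j : ℝ)) * (c j l : ℝ) +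
            if j = t0 then (c j l : ℝ) else 0 := by
        intro j
        split_ifs <;> ring
      rw [Finset.sum_congr rfl fun j _ => h1 j, Finset.sum_add_distrib, Finset.sum_ite_eq',
        if_pos (Finset.mem_univ t0)]
    · rw [← hC₀]
      nlinarith
  -- counting
  have hcard : U.relIndex (Lx c s) * ∏ t, N t ≤ 2 * T.ncard := by
    have h1 : Nat.card ((Lx c s ⧸ U.addSubgroupOf (Lx c s)) × ((t : Fin m) → Fin (N t))) =
        U.relIndex (Lx c s) * ∏ t, N t := by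
      rw [Nat.card_prod, Nat.card_pi]
      congr 1
      exact Finset.prod_congr rfl fun t _ => Nat.card_fin _
    rw [← h1, ← Set.ncard_univ]
    have h2 : (Set.univ : Set ((Lx c s ⧸ U.addSubgroupOf (Lx c s)) ×
        ((t : Fin m) → Fin (N t)))) = {d | f d ∉ W} ∪ {d | f d ∈ W} := by
      ext d
      simp only [Set.mem_univ, Set.mem_union, true_iff]
      exact (em (f d ∈ W)).symm
    rw [h2]
    refine (Set.ncard_union_le _ _).trans ?_
    have h3 : {d | f d ∉ W}.ncard ≤ T.ncard := by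
      rw [← Set.ncard_image_of_injective _ hfinj]
      refine Set.ncard_le_ncard ?_ hfin
      rintro _ ⟨d, hd, rfl⟩
      rw [hT]
      exact ⟨hfV d, hd, hn1 d⟩
    have h4 : {d | f d ∈ W}.ncard ≤ T.ncard := by
      have hinj : Function.Injective fun d => f d + c t0 := fun d d' h =>
        hfinj (add_right_cancel h)
      rw [← Set.ncard_image_of_injective _ hinj]
      refine Set.ncard_le_ncard ?_ hfin
      rintro _ ⟨d, hd, rfl⟩
      rw [hT]
      refine ⟨(Lx c s).add_mem (hfV d) hctV, fun h => ht0W ?_, hn2 d⟩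
      have hd' : f d ∈ W := hd
      exact (AddSubgroup.add_mem_cancel_left W hd').1 h
    omega
  have hprod : ∏ t : Fin m, (if (t : ℕ) < s then 1 + ρ / kap t else 1) ≤
      2 ^ m * ∏ t, (N t : ℝ) := by
    have h1 : (2 : ℝ) ^ m * ∏ t, (N t : ℝ) = ∏ t : Fin m, (2 * (N t : ℝ)) := by
      rw [Finset.prod_mul_distrib, Finset.prod_const, Finset.card_univ, Fintype.card_fin]
    rw [h1]
    refine Finset.prod_le_prod (fun t _ => ?_) fun t _ => ?_
    · have hk := hS.pos t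
      split_ifs <;> positivity
    · have hk := hS.pos t
      rw [hN]
      split_ifs
      · have h2 : ρ / kap t < ⌊ρ / kap t⌋₊ + 1 := Nat.lt_floor_add_one _
        have h3 : (0 : ℝ) ≤ ⌊ρ / kap t⌋₊ := Nat.cast_nonneg _
        push_cast
        linarith
      · norm_num
  have hcard' : (U.relIndex (Lx c s) : ℝ) * ∏ t, (N t : ℝ) ≤ 2 * (T.ncard : ℝ) := by
    exact_mod_cast hcard
  have hTn : (0 : ℝ) ≤ T.ncard := Nat.cast_nonneg _
  calc (U.relIndex (Lx c s) : ℝ) * ∏ t : Fin m, (if (t : ℕ) < s then 1 + ρ / kap t else 1)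
      ≤ (U.relIndex (Lx c s) : ℝ) * (2 ^ m * ∏ t, (N t : ℝ)) :=
        mul_le_mul_of_nonneg_left hprod (Nat.cast_nonneg _)
    _ = 2 ^ m * ((U.relIndex (Lx c s) : ℝ) * ∏ t, (N t : ℝ)) := by ring
    _ ≤ 2 ^ m * (2 * (T.ncard : ℝ)) := mul_le_mul_of_nonneg_left hcard' (by positivity)
    _ ≤ (2 * 2 ^ m + C₀) * (T.ncard : ℝ) := by nlinarith

end Pool.Agent.H27.L1.H67.GZ
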