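import Pool.Agent.H27.L1.H34.GZ.Targets1

/-!
# Row IDX of the board gz: integer matrices and the subgroups of finite index
-/

set_option autoImplicit false

namespace Pool.Agent.H27.L1.H67.GZ

open Pool.Agent.H27.L1.H34.GM Pool.Agent.H27.L1.H34.GZ Module

theorem clo_eq {m : ℕ} (x : ZM m) :
    AddSubgroup.closure (Set.range x) = (Submodule.span ℤ (Set.range x)).toAddSubgroup :=
  (Submodule.span_int_eq_addSubgroupClosure _).symm

theorem det_of_basis {m : ℕ} (N : Submodule ℤ (Fin m → ℤ)) (b : Basis (Fin m) ℤ N) (x : ZM m)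
    (hx : ∀ i, (b i : Fin m → ℤ) = x i) : x.det.natAbs = N.toAddSubgroup.index := by
  have h := Submodule.natAbs_det_basis_change (Pi.basisFun ℤ (Fin m)) N b
  have e : ((↑) ∘ b : Fin m → Fin m → ℤ) = x := funext hx
  rw [e, Pi.basisFun_det_apply] at h
  exact h

theorem idx1 {m : ℕ} (x : ZM m) (hx : x.det ≠ 0) :
    (AddSubgroup.closure (Set.range x)).index = x.det.natAbs := by
  have hli : LinearIndependent ℤ x := Matrix.linearIndependent_rows_of_det_ne_zero hx
  rw [clo_eq]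
  exact (det_of_basis _ (Basis.span hli) x fun i =>
    congrArg Subtype.val (Basis.span_apply hli i)).symm

theorem idx2 {m : ℕ} (L : AddSubgroup (Fin m → ℤ)) (hL : L.index ≠ 0) :
    ∃ x : ZM m, x.det ≠ 0 ∧ AddSubgroup.closure (Set.range x) = L := by
  obtain ⟨N, hN⟩ : ∃ N : Submodule ℤ (Fin m → ℤ), N.toAddSubgroup = L :=
    ⟨AddSubgroup.toIntSubmodule L, rfl⟩
  have hfin : Finite ((Fin m → ℤ) ⧸ N) := by
    have h1 : Nat.card ((Fin m → ℤ) ⧸ N) ≠ 0 := by
      rw [← hN] at hL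
      exact hL
    exact Nat.finite_of_card_ne_zero h1
  have hrank : finrank ℤ N = m := by
    have h1 := (Submodule.finiteQuotient_iff N).1 hfin
    rw [h1, finrank_fin_fun]
  obtain ⟨b, -⟩ : ∃ b : Basis (Fin m) ℤ N, b = b := ⟨finBasisOfFinrankEq ℤ N hrank, rfl⟩
  obtain ⟨x, hx⟩ : ∃ x : ZM m, ∀ i, (b i : Fin m → ℤ) = x i :=
    ⟨fun i => (b i : Fin m → ℤ), fun i => rfl⟩
  refine ⟨x, ?_, ?_⟩
  · have h1 := det_of_basis N b x hx
    rw [hN] at h1
    intro h2
    rw [h2] at h1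
    exact hL h1.symm
  · rw [clo_eq, ← hN]
    congr 1
    have h1 : Set.range x = N.subtype '' Set.range b := by
      rw [← Set.range_comp]
      congr 1
      funext i
      exact (hx i).symm
    rw [h1, ← Submodule.map_span, b.span_eq, Submodule.map_subtype_top]

theorem idx3 {m : ℕ} (x y : ZM m) :
    (∀ i, y i ∈ AddSubgroup.closure (Set.range x)) ↔ ∃ u : ZM m, y = u * x := by
  rw [clo_eq]
  constructor
  · intro h
    have h1 : ∀ i, ∃ c : Fin m → ℤ, ∑ j, c j • x j = y i := fun i =>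
      (Submodule.mem_span_range_iff_exists_fun ℤ).1 (h i)
    choose c hc using h1
    refine ⟨Matrix.of c, ?_⟩
    ext i l
    rw [← hc i, Matrix.mul_apply, Finset.sum_apply]
    rfl
  · rintro ⟨u, rfl⟩ i
    refine (Submodule.mem_span_range_iff_exists_fun ℤ).2 ⟨u i, ?_⟩
    funext l
    rw [Matrix.mul_apply, Finset.sum_apply]
    rfl

theorem mem_clo {m : ℕ} (x : ZM m) (i : Fin m) : x i ∈ AddSubgroup.closure (Set.range x) :=
  AddSubgroup.subset_closure (Set.mem_range_self i)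

theorem idx4 {m : ℕ} (x y : ZM m) (hx : x.det ≠ 0) :
    AddSubgroup.closure (Set.range x) = AddSubgroup.closure (Set.range y) ↔
      ∃ u : ZM m, IsUnit u ∧ y = u * x := by
  constructor
  · intro h
    obtain ⟨u, hu⟩ := (idx3 x y).1 fun i => by rw [h]; exact mem_clo y i
    obtain ⟨v, hv⟩ := (idx3 y x).1 fun i => by rw [← h]; exact mem_clo x i
    refine ⟨u, ?_, hu⟩
    have h1 : (v * u - 1) * x = 0 := by
      rw [sub_mul, one_mul, Matrix.mul_assoc, ← hu, ← hv, sub_self]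
    have h2 : v * u - 1 = 0 := by
      have h3 : (v * u - 1) * x * x.adjugate = 0 := by rw [h1, Matrix.zero_mul]
      rw [Matrix.mul_assoc, Matrix.mul_adjugate, Matrix.mul_smul, Matrix.mul_one] at h3
      exact (smul_eq_zero.1 h3).resolve_left hx
    have h3 : v.det * u.det = 1 := by
      rw [← Matrix.det_mul, sub_eq_zero.1 h2, Matrix.det_one]
    rw [Matrix.isUnit_iff_isUnit_det]
    exact isUnit_iff_exists_inv'.2 ⟨v.det, h3⟩
  · rintro ⟨u, hu, rfl⟩
    obtain ⟨v, hv⟩ := hu.exists_left_inv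
    refine le_antisymm ?_ ?_
    · rw [AddSubgroup.closure_le]
      rintro _ ⟨i, rfl⟩
      refine (idx3 (u * x) x).2 ⟨v, ?_⟩ i
      rw [← Matrix.mul_assoc, hv, Matrix.one_mul]
    · rw [AddSubgroup.closure_le]
      rintro _ ⟨i, rfl⟩
      exact (idx3 x (u * x)).2 ⟨u, rfl⟩ i

theorem idx5 {m : ℕ} (x : ZM m) (hx : x.det ≠ 0) :
    {L : AddSubgroup (Fin m → ℤ) | ∀ i, x i ∈ L}.Finite ∧
    ∀ L : AddSubgroup (Fin m → ℤ), (∀ i, x i ∈ L) → L.index ≠ 0 ∧ L.index ≤ x.det.natAbs := by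
  obtain ⟨N, hN⟩ : ∃ N : AddSubgroup (Fin m → ℤ), N = AddSubgroup.closure (Set.range x) :=
    ⟨_, rfl⟩
  have hidx : N.index = x.det.natAbs := by rw [hN]; exact idx1 x hx
  have h0 : x.det.natAbs ≠ 0 := Int.natAbs_ne_zero.2 hx
  have hle : ∀ L : AddSubgroup (Fin m → ℤ), (∀ i, x i ∈ L) → N ≤ L := by
    intro L hL
    rw [hN, AddSubgroup.closure_le]
    rintro _ ⟨i, rfl⟩
    exact hL i
  constructor
  · have hfin : Finite ((Fin m → ℤ) ⧸ N) := by
      refine Nat.finite_of_card_ne_zero ?_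
      change N.index ≠ 0
      rw [hidx]
      exact h0
    refine Set.Finite.of_finite_image (f := fun L : AddSubgroup (Fin m → ℤ) =>
      (QuotientAddGroup.mk '' (L : Set (Fin m → ℤ)) : Set ((Fin m → ℤ) ⧸ N))) (Set.toFinite _) ?_
    have key : ∀ L L' : AddSubgroup (Fin m → ℤ), N ≤ L' →
        (QuotientAddGroup.mk '' (L : Set (Fin m → ℤ)) : Set ((Fin m → ℤ) ⧸ N)) =
          QuotientAddGroup.mk '' (L' : Set (Fin m → ℤ)) → L ≤ L' := by
      intro L L' hL' h g hg
      have h1 : (QuotientAddGroup.mk g : (Fin m → ℤ) ⧸ N) ∈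
          (QuotientAddGroup.mk '' (L' : Set (Fin m → ℤ)) : Set ((Fin m → ℤ) ⧸ N)) := by
        rw [← h]
        exact ⟨g, hg, rfl⟩
      obtain ⟨g', hg', he⟩ := h1
      have h2 := hL' (QuotientAddGroup.eq.1 he)
      have h3 := L'.add_mem hg' h2
      rwa [add_neg_cancel_left] at h3
    intro L hL L' hL' h
    exact le_antisymm (key L L' (hle L' hL') h) (key L' L (hle L hL) h.symm)
  · intro L hL
    have h1 : L.index ∣ x.det.natAbs := by
      rw [← hidx]
      exact AddSubgroup.index_dvd_of_le (hle L hL)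
    exact ⟨ne_zero_of_dvd_ne_zero h0 h1, Nat.le_of_dvd (Nat.pos_of_ne_zero h0) h1⟩

theorem pf_IDX : T_IDX := fun _ => ⟨idx1, idx2, idx3, idx4, idx5⟩

end Pool.Agent.H27.L1.H67.GZ
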